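import Pool.Agent.H45.EGH.E8P

/-!
# The Eisenbud-Green-Harris bound when all but six of the quadrics are products of linear forms

Every field `K`, every `n`, every homogeneous ideal `I` of `K[x_1, ..., x_n]` which contains a
regular sequence of `n` quadrics such that all of them after the first six are products of two
linear forms over the algebraic closure of `K`, every degree. For `n ≤ 6` there is no condition
on the quadrics, and the statement is the frozen statement S02859 for these `n`.
-/

set_option autoImplicit false

namespace Pool.Agent.Results.MP_b98955_al.AllButSixProducts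

/-- The conjecture of Eisenbud, Green and Harris for quadrics, all but six of which are products
of two linear forms. -/
theorem result :
    ∀ (K : Type) [Field K] (n : ℕ) (I : Ideal (MvPolynomial (Fin n) K)),
      (∀ f ∈ I, ∀ d : ℕ, MvPolynomial.homogeneousComponent d f ∈ I) →
      (∃ rs : List (MvPolynomial (Fin n) K), rs.length = n ∧
          (∀ f ∈ rs, f.IsHomogeneous 2 ∧ f ∈ I) ∧
          (∀ f ∈ rs.drop 6, ∃ l m : MvPolynomial (Fin n) (AlgebraicClosure K),
            l.IsHomogeneous 1 ∧ m.IsHomogeneous 1 ∧
              MvPolynomial.map (algebraMap K (AlgebraicClosure K)) f = l * m) ∧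
          RingTheory.Sequence.IsRegular (MvPolynomial (Fin n) K) rs) →
      ∀ (i : ℕ), 1 ≤ i →
        ∀ m : ℕ → ℕ, (∀ k : ℕ, 1 ≤ k → k < i → m k < m (k + 1)) →
          Module.finrank K (MvPolynomial.homogeneousSubmodule (Fin n) K i) -
              Module.finrank K
                ↥(I.restrictScalars K ⊓ MvPolynomial.homogeneousSubmodule (Fin n) K i)
            = ∑ k ∈ Finset.Icc 1 i, (m k).choose k →
          Module.finrank K (MvPolynomial.homogeneousSubmodule (Fin n) K (i + 1)) -
              Module.finrank K
                ↥(I.restrictScalars K ⊓ MvPolynomial.homogeneousSubmodule (Fin n) K (i + 1))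
            ≤ ∑ k ∈ Finset.Icc 1 i, (m k).choose (k + 1) := by
  intro K _ n I hI ⟨rs, hlen, hrs, hprod, hreg⟩ i _ m hm hsum
  exact Pool.EGH.E8.egh_e8 K n I hI rs hlen hrs hreg hprod i m hm hsum

end Pool.Agent.Results.MP_b98955_al.AllButSixProducts
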