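import Pool.Agent.H45.EGH.E7

/-!
# The Eisenbud-Green-Harris bound when the Hilbert function in degree two is at most twelve

Every field `K`, every `n`, every homogeneous ideal `I` of `R = K[x_1, ..., x_n]` which contains a
regular sequence of `n` quadrics and for which `R/I` has dimension at most twelve in degree two,
every degree.
-/

set_option autoImplicit false

namespace Pool.Agent.Results.MP_b98955_al.DegreeTwoAtMostTwelve

/-- The conjecture of Eisenbud, Green and Harris for quadrics in any number of variables, if the
Hilbert function in degree two is at most twelve. -/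
theorem result :
    ∀ (K : Type) [Field K] (n : ℕ) (I : Ideal (MvPolynomial (Fin n) K)),
      (∀ f ∈ I, ∀ d : ℕ, MvPolynomial.homogeneousComponent d f ∈ I) →
      (∃ rs : List (MvPolynomial (Fin n) K), rs.length = n ∧
          (∀ f ∈ rs, f.IsHomogeneous 2 ∧ f ∈ I) ∧
          RingTheory.Sequence.IsRegular (MvPolynomial (Fin n) K) rs) →
      Module.finrank K (MvPolynomial.homogeneousSubmodule (Fin n) K 2) -
          Module.finrank K
            ↥(I.restrictScalars K ⊓ MvPolynomial.homogeneousSubmodule (Fin n) K 2) ≤ 12 →
      ∀ (i : ℕ), 1 ≤ i →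
        ∀ m : ℕ → ℕ, (∀ k : ℕ, 1 ≤ k → k < i → m k < m (k + 1)) →
          Module.finrank K (MvPolynomial.homogeneousSubmodule (Fin n) K i) -
              Module.finrank K
                ↥(I.restrictScalars K ⊓ MvPolynomial.homogeneousSubmodule (Fin n) K i)
            = ∑ k ∈ Finset.Icc 1 i, (m k).choose k →
          Module.finrank K (MvPolynomial.homogeneousSubmodule (Fin n) K (i + 1)) -
              Module.finrank K
                ↥(I.restrictScalars K ⊓ MvPolynomial.homogeneousSubmodule (Fin n) K (i + 1))
            ≤ ∑ k ∈ Finset.Icc 1 i, (m k).choose (k + 1) := by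
  intro K _ n I hI hreg h12 i hi m hm hsum
  exact Pool.EGH.egh_e7 K n I (Or.inr h12) hI hreg i hi m hm hsum

end Pool.Agent.Results.MP_b98955_al.DegreeTwoAtMostTwelve
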