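import Pool.Agent.H45.EGD.All

/-!
# The Eisenbud-Green-Harris bound when the Hilbert function in degree `i` is at most `2 i`

Every field `K`, every `n`, every homogeneous ideal `I` of `R = K[x_1, ..., x_n]` which contains a
regular sequence of `n` quadrics, every degree `i` in which `R/I` has dimension at most `2 i`.
-/

set_option autoImplicit false

namespace Pool.Agent.Results.MP_b98955_al.TwiceTheDegree

/-- The conjecture of Eisenbud, Green and Harris for quadrics in the degrees `i` in which the
Hilbert function is at most `2 i`. -/
theorem result :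
    ∀ (K : Type) [Field K] (n : ℕ) (I : Ideal (MvPolynomial (Fin n) K)),
      (∀ f ∈ I, ∀ d : ℕ, MvPolynomial.homogeneousComponent d f ∈ I) →
      (∃ rs : List (MvPolynomial (Fin n) K), rs.length = n ∧
          (∀ f ∈ rs, f.IsHomogeneous 2 ∧ f ∈ I) ∧
          RingTheory.Sequence.IsRegular (MvPolynomial (Fin n) K) rs) →
      ∀ (i : ℕ), 1 ≤ i →
        Module.finrank K (MvPolynomial.homogeneousSubmodule (Fin n) K i) -
            Module.finrank K
              ↥(I.restrictScalars K ⊓ MvPolynomial.homogeneousSubmodule (Fin n) K i) ≤ 2 * i →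
        ∀ m : ℕ → ℕ, (∀ k : ℕ, 1 ≤ k → k < i → m k < m (k + 1)) →
          Module.finrank K (MvPolynomial.homogeneousSubmodule (Fin n) K i) -
              Module.finrank K
                ↥(I.restrictScalars K ⊓ MvPolynomial.homogeneousSubmodule (Fin n) K i)
            = ∑ k ∈ Finset.Icc 1 i, (m k).choose k →
          Module.finrank K (MvPolynomial.homogeneousSubmodule (Fin n) K (i + 1)) -
              Module.finrank K
                ↥(I.restrictScalars K ⊓ MvPolynomial.homogeneousSubmodule (Fin n) K (i + 1))
            ≤ ∑ k ∈ Finset.Icc 1 i, (m k).choose (k + 1) :=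
  Pool.EGD.mainA

end Pool.Agent.Results.MP_b98955_al.TwiceTheDegree
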